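import Pool.Agent.H27G.Main

/-!
# MP_6f575e_gt: tori in flows

`DiffC` is the group of compactly supported smooth diffeomorphisms of the plane.  For two commuting
smooth flows with compact support and every perfect central extension of `DiffC`, the commutator
of lifts is bilinear over the real numbers in the two times; in particular lifts of two elements of
one flow commute.
-/

set_option autoImplicit false

open scoped ContDiff commutatorElement
open Pool.Agent.H45F Pool.Agent.H27G

namespace Pool.Agent.Results.MP_6f575e_gt.FlowTori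

/-- Let `p : E → DiffC` be a perfect central extension and `φ` and `ψ` commuting smooth flows of the
plane which are the identity outside a disc.  For all real `α`, `s`, `t`, lifts of `φ (α s)` and
`ψ t` have the same commutator as lifts of `φ s` and `ψ (α t)`, and lifts of `φ s` and `φ t`
commute. -/
theorem result {E : Type*} [Group E] (p : E →* DiffC) (hp : Function.Surjective p)
    (hc : p.ker ≤ Subgroup.center E) (hE : commutator E = ⊤)
    (φ ψ : ℝ → ℂ → ℂ) (R : ℝ)
    (hφ : ContDiff ℝ ∞ (fun q : ℝ × ℂ => φ q.1 q.2)) (hφ0 : ∀ z, φ 0 z = z)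
    (hφa : ∀ s t z, φ (s + t) z = φ s (φ t z)) (hφR : ∀ t z, R ≤ ‖z‖ → φ t z = z)
    (hψ : ContDiff ℝ ∞ (fun q : ℝ × ℂ => ψ q.1 q.2)) (hψ0 : ∀ z, ψ 0 z = z)
    (hψa : ∀ s t z, ψ (s + t) z = ψ s (ψ t z)) (hψR : ∀ t z, R ≤ ‖z‖ → ψ t z = z)
    (hcomm : ∀ s t z, φ s (ψ t z) = ψ t (φ s z)) (α s t : ℝ) :
    (∀ x y x' y' : E,
      (∀ z, (p x : Equiv.Perm ℂ) z = φ (α * s) z) → (∀ z, (p y : Equiv.Perm ℂ) z = ψ t z) →
      (∀ z, (p x' : Equiv.Perm ℂ) z = φ s z) → (∀ z, (p y' : Equiv.Perm ℂ) z = ψ (α * t) z) →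
        ⁅x, y⁆ = ⁅x', y'⁆) ∧
    ∀ x y : E, (∀ z, (p x : Equiv.Perm ℂ) z = φ s z) →
      (∀ z, (p y : Equiv.Perm ℂ) z = φ t z) → ⁅x, y⁆ = 1 := by
  constructor
  · intro x y x' y' hx hy hx' hy'
    obtain ⟨c, hcb, hcx⟩ := bilinear p hp hc hE hφ hφ0 hφa hφR hψ hψ0 hψa hψR hcomm
    rw [← hcx (α * s) t x y hx hy, ← hcx s (α * t) x' y' hx' hy', hcb α s t]
  · intro x y hx hy
    have hself : ∀ s t z, φ s (φ t z) = φ t (φ s z) := fun s t z => by
      rw [← hφa, ← hφa, add_comm]
    obtain ⟨c, hcb, hcx⟩ := bilinear p hp hc hE hφ hφ0 hφa hφR hφ hφ0 hφa hφR hself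
    have hmem : ∀ u : ℝ, ∃ g : DiffC, ∀ z, (g : Equiv.Perm ℂ) z = φ u z := by
      intro u
      have h1 : ∀ z, φ (-u) (φ u z) = z := fun z => by rw [← hφa, neg_add_cancel, hφ0]
      have h2 : ∀ z, φ u (φ (-u) z) = z := fun z => by rw [← hφa, add_neg_cancel, hφ0]
      refine ⟨⟨⟨φ u, φ (-u), h1, h2⟩, ?_, ?_, R, fun z hz => hφR u z hz⟩, fun z => rfl⟩
      · exact hφ.comp (contDiff_const.prodMk contDiff_id)
      · exact hφ.comp (contDiff_const.prodMk contDiff_id)
    have hanti : ∀ u v : ℝ, c u v = - c v u := by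
      intro u v
      obtain ⟨g, hg⟩ := hmem u
      obtain ⟨h, hh⟩ := hmem v
      obtain ⟨a, ha⟩ := hp g
      obtain ⟨b, hb⟩ := hp h
      have e1 := hcx u v a b (fun z => by rw [ha, hg]) (fun z => by rw [hb, hh])
      have e2 := hcx v u b a (fun z => by rw [hb, hh]) (fun z => by rw [ha, hg])
      apply Additive.toMul.injective
      rw [toMul_neg]
      apply Subtype.ext
      rw [e1, Subgroup.coe_inv, e2, commutatorElement_inv]
    have h2 : ∀ β u : ℝ, c u (β * u) + c u (β * u) = 0 := by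
      intro β u
      have h3 := hcb β u u
      have h4 := hanti (β * u) u
      rw [h3] at h4
      nth_rewrite 1 [h4]
      exact neg_add_cancel _
    have h5 : ∀ β u : ℝ, c u (β * u) = 0 := by
      intro β u
      obtain ⟨v, rfl⟩ : ∃ v, u = v + v := ⟨u / 2, by ring⟩
      have e' : β * (v + v) = β * v + β * v := by ring
      have h6 : c (v + v) (β * (v + v)) = (c v (β * v) + c v (β * v)) +
          (c v (β * v) + c v (β * v)) := by
        rw [e', map_add, map_add, AddMonoidHom.add_apply]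
      rw [h6, h2, add_zero]
    have h7 : c s t = 0 := by
      by_cases hs : s = 0
      · rw [hs, map_zero, AddMonoidHom.zero_apply]
      · have e : t = t / s * s := by field_simp
        rw [e]
        exact h5 _ _
    rw [← hcx s t x y hx hy, h7]
    rfl

end Pool.Agent.Results.MP_6f575e_gt.FlowTori
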