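import Pool.Agent.H45F.Genus

set_option autoImplicit false

open scoped commutatorElement

namespace Pool.Agent.Results.MP_6f575e_gt.GenusTwo

open Pool.Agent.H45F

/-- Let `G = DiffC` be the group of compactly supported smooth diffeomorphisms of the plane.
There are `t` in `G` having a wandering open set `W` (no positive power of `t` maps a point of
`W` into `W`), and for every such `t` and every central extension `p : E → G` with `E` perfect,
every element `z` of the kernel is `[A, B] [F, t']` with `A, B, F` in `E`, where `t'` is any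
prescribed lift of `t`. -/
theorem result :
    (∃ (t : DiffC) (W : Set ℂ), IsOpen W ∧ W.Nonempty ∧
      ∀ n : ℕ, 1 ≤ n → ∀ z ∈ W, ((t ^ n : DiffC) : Equiv.Perm ℂ) z ∉ W) ∧
    ∀ (t : DiffC) (W : Set ℂ), IsOpen W → W.Nonempty →
      (∀ n : ℕ, 1 ≤ n → ∀ z ∈ W, ((t ^ n : DiffC) : Equiv.Perm ℂ) z ∉ W) →
      ∀ {E : Type*} [Group E] (p : E →* DiffC), Function.Surjective p →
        p.ker ≤ Subgroup.center E → commutator E = ⊤ →
        ∀ t' : E, p t' = t → ∀ z : E, p z = 1 → ∃ A B F : E, z = ⁅A, B⁆ * ⁅F, t'⁆ := by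
  refine ⟨exists_wandering, ?_⟩
  intro t W hWo hWn hW E _ p hp hc hE t' ht' z hz
  obtain ⟨g, A, B, F, h⟩ := genus_two t W hWo hWn hW p hp hc hE z t' ht'
  refine ⟨A, B, F, ?_⟩
  have hzc : z ∈ Subgroup.center E := hc (MonoidHom.mem_ker.mpr hz)
  have h1 : g * z = z * g := Subgroup.mem_center_iff.mp hzc g
  have h2 : ⁅A, B⁆ * ⁅F, t'⁆ = g⁻¹ * (z * g) := by rw [h]; group
  rw [h2, ← h1]; group

end Pool.Agent.Results.MP_6f575e_gt.GenusTwo
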