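import Pool.Agent.H75T.Sym

/-!
# MP_6f575e_gt: twist maps along a flow, and the area form

`DiffC` is the group of compactly supported smooth diffeomorphisms of the plane.  A smooth flow `F`
on the line, supported in `[-R, R]`, gives the commuting twist maps `(x, y) ↦ (x, F (u x) y)` of the
plane, `u` a test function on the line.  In every perfect central extension of `DiffC` the
commutator of lifts of two twist maps depends only on the integral `∫ u dv`.
-/

set_option autoImplicit false

open scoped ContDiff commutatorElement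
open Pool.Agent.H45F Pool.Agent.H75T

namespace Pool.Agent.Results.MP_6f575e_gt.TwistArea

theorem isTF {u : ℝ → ℝ} (h : ContDiff ℝ ∞ u) (h' : HasCompactSupport u) : IsTF u := by
  obtain ⟨R, -, hR⟩ := h'.exists_pos_le_norm
  exact ⟨h, R, hR⟩

/-- Let `p : E → DiffC` be a perfect central extension and `F` a smooth flow on the line with
compact support.  There is a homomorphism `τ` from `(ℝ, +)` to the kernel of `p` such that, for all
test functions `u`, `v` and all lifts `x`, `y` of the twist maps `(x, y) ↦ (x, F (u x) y)` and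
`(x, y) ↦ (x, F (v x) y)`, the commutator `⁅x, y⁆` is `τ (∫ u dv)`.  Moreover `τ` is trivial if some
diffeomorphism `y ↦ y + k y` or `y ↦ -(y + k y)`, `k` a test function, carries the flow to the flow
with time multiplied by a constant `l`, where `l ^ 2 ≠ 1` in the first case. -/
theorem result {E : Type*} [Group E] (p : E →* DiffC) (hp : Function.Surjective p)
    (hc : p.ker ≤ Subgroup.center E) (hE : commutator E = ⊤)
    (F : ℝ → ℝ → ℝ) (R : ℝ) (hF : ContDiff ℝ ∞ (fun q : ℝ × ℝ => F q.1 q.2))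
    (hF0 : ∀ y, F 0 y = y) (hFa : ∀ s t y, F (s + t) y = F s (F t y))
    (hFR : ∀ t y, R ≤ |y| → F t y = y) :
    ∃ τ : Multiplicative ℝ →* E,
      (∀ r, p (τ r) = 1) ∧
      (∀ u v : ℝ → ℝ, ContDiff ℝ ∞ u → HasCompactSupport u → ContDiff ℝ ∞ v →
        HasCompactSupport v → ∀ x y : E,
          (∀ z : ℂ, (p x : Equiv.Perm ℂ) z = ⟨z.re, F (u z.re) z.im⟩) →
          (∀ z : ℂ, (p y : Equiv.Perm ℂ) z = ⟨z.re, F (v z.re) z.im⟩) →
          ⁅x, y⁆ = τ (Multiplicative.ofAdd (∫ t, u t * deriv v t))) ∧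
      (∀ (l : ℝ) (k : ℝ → ℝ), ContDiff ℝ ∞ k → HasCompactSupport k → (∀ y, -1 < deriv k y) →
        ((l ^ 2 ≠ 1 ∧ ∀ t y, F t y + k (F t y) = F (l * t) (y + k y)) ∨
          ∀ t y, -(F t y + k (F t y)) = F (l * t) (-(y + k y))) →
        ∀ r, τ r = 1) := by
  have hFl : Flow F R := ⟨hF, hF0, hFa, hFR⟩
  refine ⟨tau p hp hc hE hFl, fun r => tau_mem p hp hc hE hFl r.toAdd, ?_, ?_⟩
  · intro u v hu hu' hv hv' x y hx hy
    have h1 := isTF hu hu'
    have h2 := isTF hv hv'
    refine tau_area p hp hc hE hFl h1 h2 (diffC_ext fun z => ?_) (diffC_ext fun z => ?_)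
    · rw [hx, hFl.tg_apply h1]
    · rw [hy, hFl.tg_apply h2]
  · rintro l k hk hk' hd (⟨hl, hrel⟩ | hrel) r
    · exact tau_one_of_scale p hp hc hE hFl (isTF hk hk') hd hl hrel r
    · exact tau_one_of_flip p hp hc hE hFl (isTF hk hk') hd hrel r

end Pool.Agent.Results.MP_6f575e_gt.TwistArea
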